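import Pool.Agent.H8.DS.TarG

/-!
CHHC (MP_81a758_an): chains of steps and chains of first returns.
-/

namespace DS

open Set Data

namespace H70CHHC

variable {C S : Type}

/-- Leaves can be composed. -/
theorem reach_trans (X : Data C S) (t : ℝ) {P Q R : C × ℝ × ℝ} {m n : ℝ}
    (h : X.Reach t P Q m) (h' : X.Reach t Q R n) : X.Reach t P R (m * n) := by
  induction h' with
  | step h1 => exact Reach.tail h h1
  | tail _ h2 ih =>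
    have := Reach.tail ih h2
    rwa [mul_assoc] at this

theorem ch_hc (hHS : T_HS) (X : Data C S) (hX : X.Surface) (t : ℝ) (n : ℕ) :
    ∀ y y' : S × ℝ, y.2 ∈ Ioo (0 : ℝ) 1 → ((∃ m, X.Ch t n y y' m) ↔ X.HC t n y y') := by
  induction n with
  | zero =>
    intro y y' _
    constructor
    · rintro ⟨m, h, _⟩
      exact h
    · intro h
      exact ⟨1, h, rfl⟩
  | succ n ih =>
    intro y y' hy
    constructor
    · rintro ⟨m, y₁, m₁, m₂, hy₁, hs, hc, _⟩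
      exact ⟨y₁, (hHS C S X hX t y y₁ hy hy₁).2 ⟨m₁, hs⟩, (ih y₁ y' hy₁).1 ⟨m₂, hc⟩⟩
    · rintro ⟨y₁, hh, hc⟩
      have hy₁ : y₁.2 ∈ Ioo (0 : ℝ) 1 := hh.2.1
      obtain ⟨m₁, hs⟩ := (hHS C S X hX t y y₁ hy hy₁).1 hh
      obtain ⟨m₂, hc'⟩ := (ih y₁ y' hy₁).2 hc
      exact ⟨m₁ * m₂, y₁, m₁, m₂, hy₁, hs, hc', rfl⟩

theorem hc_leaf (hHS : T_HS) (X : Data C S) (hX : X.Surface) (t : ℝ) (n : ℕ) :
    ∀ y y' : S × ℝ, y.2 ∈ Ioo (0 : ℝ) 1 → X.HC t (n + 1) y y' →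
      X.Leaf t (X.sp y) (X.sp y') := by
  induction n with
  | zero =>
    rintro y y' hy ⟨y₁, hh, hc⟩
    have hy₁ : y₁.2 ∈ Ioo (0 : ℝ) 1 := hh.2.1
    obtain ⟨m₁, hs⟩ := (hHS C S X hX t y y₁ hy hy₁).1 hh
    have h : y₁ = y' := hc
    subst h
    exact ⟨m₁, Reach.step hs⟩
  | succ n ih =>
    rintro y y' hy ⟨y₁, hh, hc⟩
    have hy₁ : y₁.2 ∈ Ioo (0 : ℝ) 1 := hh.2.1
    obtain ⟨m₁, hs⟩ := (hHS C S X hX t y y₁ hy hy₁).1 hh
    obtain ⟨m₂, hr⟩ := ih y₁ y' hy₁ hc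
    exact ⟨m₁ * m₂, reach_trans X t (Reach.step hs) hr⟩

end H70CHHC

/-- CHHC. Chains of steps and chains of first returns. -/
theorem pf_CHHC (hHS : T_HS) : T_CHHC := by
  intro C S X hX t n y y' hy
  refine ⟨H70CHHC.ch_hc hHS X hX t n y y' hy, ?_⟩
  intro hn hc
  obtain ⟨k, rfl⟩ : ∃ k, n = k + 1 := ⟨n - 1, by omega⟩
  exact H70CHHC.hc_leaf hHS X hX t k y y' hy hc

end DS
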